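import Pool.Agent.H89.DF.TargetsB
import Pool.Agent.H95.FC.Targets
import Pool.Agent.H23.DF.Targets

/-!
# Dihedral `L`-functions, real quadratic fields: the algebraic part

`K` is a real quadratic field of discriminant `D` with the embeddings `σ`, `σ'`. The ideal classes
have representatives `I c` with oriented bases `α c`, `β c` and forms `Q c`, `b c v` is the ideal of
the vector `v`, `T c` are representatives of the lines modulo `f`, and `η` is a unit of norm `1`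
which is congruent to an integer modulo `f`.
-/

set_option autoImplicit false

open MeasureTheory Set Filter NumberField
open scoped Real nonZeroDivisors Matrix MatrixGroups

namespace Pool.Agent.H95.DR

open Pool.Agent.H31.CN Pool.Agent.H89.FM Pool.Agent.H61.FM Pool.Agent.H89.FC Pool.Agent.H95.FC
open Pool.Agent.H89.DF

/-! ### Definitions -/

section

variable {K : Type} [Field K] [NumberField K]

/-- the complex number `e^(τ/2) σ a + i e^(-τ/2) σ' a` -/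
noncomputable def ph (σ σ' : K →+* ℝ) (τ : ℝ) (a : 𝓞 K) : ℂ :=
  ((Real.exp (τ / 2) * σ (a : K) : ℝ) : ℂ) +
    ((Real.exp (-(τ / 2)) * σ' (a : K) : ℝ) : ℂ) * Complex.I

/-- the point of the upper half plane which belongs to the basis `a`, `b` -/
noncomputable def zp (σ σ' : K →+* ℝ) (τ : ℝ) (a b : 𝓞 K) : ℂ := ph σ σ' τ b / ph σ σ' τ a

/-- the unimodular factor -/
noncomputable def wp (σ σ' : K →+* ℝ) (τ : ℝ) (a : 𝓞 K) : ℂ :=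
  ph σ σ' τ a / (starRingEnd ℂ) (ph σ σ' τ a)

/-- `a`, `b` is an oriented basis with the form `Q`, up to the factor `N` -/
structure PB (σ σ' : K →+* ℝ) (N : ℝ) (a b : 𝓞 K) (Q : QF) : Prop where
  pos : 0 < N
  nrm : ∀ v : ℤ × ℤ, σ (lv K a b v : K) * σ' (lv K a b v : K) = N * val Q v
  ori : 0 < σ (a : K) * σ' (b : K) - σ (b : K) * σ' (a : K)

/-- oriented basis of an ideal of a real quadratic field, with its quadratic form -/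
structure OBr (σ σ' : K →+* ℝ) (I : Ideal (𝓞 K)) (α β : 𝓞 K) (Q : QF) : Prop where
  mem : ∀ γ : 𝓞 K, γ ∈ I ↔ ∃ v : ℤ × ℤ, γ = lv K α β v
  inj : ∀ v : ℤ × ℤ, lv K α β v = 0 → v = 0
  nrm : ∀ v : ℤ × ℤ, σ (lv K α β v : K) * σ' (lv K α β v : K) = (Ideal.absNorm I : ℝ) * val Q v
  ori : 0 < σ (α : K) * σ' (β : K) - σ (β : K) * σ' (α : K)

/-- the ideals `b v` of the vectors `v` of the ideal `I` -/
structure VBr (I : (Ideal (𝓞 K))⁰) (α β : 𝓞 K) (Q : QF) (b : ℤ × ℤ → (Ideal (𝓞 K))⁰) : Prop where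
  spn : ∀ v, v ≠ 0 → Ideal.span {lv K α β v} = (b v : Ideal (𝓞 K)) * I
  cls : ∀ v, v ≠ 0 → ClassGroup.mk0 (b v) = (ClassGroup.mk0 I)⁻¹
  nrm : ∀ v, v ≠ 0 → (nm (b v) : ℤ) = |val Q v|
  sur : ∀ J : (Ideal (𝓞 K))⁰, ClassGroup.mk0 J = (ClassGroup.mk0 I)⁻¹ → ∃ v, v ≠ 0 ∧ b v = J
  fib : ∀ v v', v ≠ 0 → v' ≠ 0 → (b v = b v' ↔ ∃ u : (𝓞 K)ˣ, lv K α β v' = u * lv K α β v)

/-- `η` is a unit greater than `1` of norm `1` which is congruent to an integer modulo `f` -/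
structure UNr (σ σ' : K →+* ℝ) (f : ℕ) (η : (𝓞 K)ˣ) : Prop where
  gt : 1 < σ ((η : 𝓞 K) : K)
  nrm : σ ((η : 𝓞 K) : K) * σ' ((η : 𝓞 K) : K) = 1
  rat : ∃ n : ℤ, (η : 𝓞 K) - (n : 𝓞 K) ∈ Ideal.span {(f : 𝓞 K)}

/-- the number of the units with `0 ≤ lg u < lg η` -/
noncomputable def nq (σ σ' : K →+* ℝ) (η : (𝓞 K)ˣ) : ℕ :=
  Nat.card {u : (𝓞 K)ˣ // 0 ≤ lg σ σ' (u : 𝓞 K) ∧ lg σ σ' (u : 𝓞 K) < lg σ σ' (η : 𝓞 K)}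

/-- the vector `v` lies in the window which begins at `x` -/
def Wd (σ σ' : K →+* ℝ) (α β : 𝓞 K) (η : (𝓞 K)ˣ) (x : ℝ) (v : ℤ × ℤ) : Prop :=
  v ≠ 0 ∧ x ≤ lg σ σ' (lv K α β v) ∧ lg σ σ' (lv K α β v) < x + lg σ σ' (η : 𝓞 K)

/-- the value of the character on the line of `v` -/
noncomputable def rtr (σ σ' : K →+* ℝ) (κ : ℕ) (ν : ℝ) (ψ : Ideal (𝓞 K) → ℂ)
    (b : ℤ × ℤ → (Ideal (𝓞 K))⁰) (α β : 𝓞 K) (v : ℤ × ℤ) : ℂ :=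
  ψ (b v) * (tyr σ σ' κ ν (lv K α β v))⁻¹

/-- the symmetric completed Epstein zeta function on the geodesic of the basis `a`, `b` -/
noncomputable def Fr (σ σ' : K →+* ℝ) (κ : ℕ) (m : ℤ) (s : ℂ) (n : ℕ)
    (L : AddSubgroup (ℤ × ℤ)) (a b : 𝓞 K) (τ : ℝ) : ℂ :=
  (wp σ σ' τ a ^ m * Em m s n L (zp σ σ' τ a b).re (zp σ σ' τ a b).im +
    (-1) ^ κ * wp σ σ' τ a ^ (-m) * Em (-m) s n L (zp σ σ' τ a b).re (zp σ σ' τ a b).im) / 2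

/-- the transform of the function `k` -/
noncomputable def kr (κ : ℕ) (m : ℤ) (ν : ℝ) (k : ℝ → ℂ) (r : ℝ) : ℂ :=
  ∫ τ : ℝ, trr κ m τ * k (r * Real.cosh τ) * Complex.exp (-(((ν * τ : ℝ) : ℂ) * Complex.I))

end

/-- the data of the field `K` and the conductor `f` -/
structure DD (K : Type) [Field K] [NumberField K] (D f : ℕ) (σ σ' : K →+* ℝ) where
  I : ClassGroup (𝓞 K) → (Ideal (𝓞 K))⁰
  α : ClassGroup (𝓞 K) → 𝓞 K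
  β : ClassGroup (𝓞 K) → 𝓞 K
  Q : ClassGroup (𝓞 K) → QF
  b : ClassGroup (𝓞 K) → ℤ × ℤ → (Ideal (𝓞 K))⁰
  T : ClassGroup (𝓞 K) → Finset (ℤ × ℤ)
  W : ClassGroup (𝓞 K) → ℤ × ℤ → ℤ × ℤ
  η : (𝓞 K)ˣ
  cl : ∀ c, ClassGroup.mk0 (I c) = c
  ds : ∀ c, dsc (Q c) = -(D : ℤ)
  ob : ∀ c, OBr σ σ' (I c : Ideal (𝓞 K)) (α c) (β c) (Q c)
  vb : ∀ c, VBr (I c) (α c) (β c) (Q c) (b c)
  lt : ∀ c, LT f (Q c) (T c) (W c)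
  un : UNr σ σ' f η

section

variable {K : Type} [Field K] [NumberField K] {D f : ℕ} {σ σ' : K →+* ℝ}

/-- the form of a line -/
def DD.fo (R : DD K D f σ σ') (c : ClassGroup (𝓞 K)) (V : ℤ × ℤ) : QF :=
  fl f (R.Q c) V (R.W c V)

/-- the first vector of the basis of a line -/
def DD.v₁ (R : DD K D f σ σ') (c : ClassGroup (𝓞 K)) (V : ℤ × ℤ) : 𝓞 K :=
  lv K (R.α c) (R.β c) V

/-- the second vector of the basis of a line -/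
def DD.v₂ (R : DD K D f σ σ') (c : ClassGroup (𝓞 K)) (V : ℤ × ℤ) : 𝓞 K :=
  (f : 𝓞 K) * lv K (R.α c) (R.β c) (R.W c V)

/-- the point of a line -/
noncomputable def DD.z (R : DD K D f σ σ') (c : ClassGroup (𝓞 K)) (V : ℤ × ℤ) (τ : ℝ) : ℂ :=
  zp σ σ' τ (R.v₁ c V) (R.v₂ c V)

/-- the period -/
noncomputable def DD.P (R : DD K D f σ σ') : ℝ := lg σ σ' (R.η : 𝓞 K)

/-- the number of the units with `0 ≤ lg u < P` -/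
noncomputable def DD.n (R : DD K D f σ σ') : ℕ := nq σ σ' R.η

/-- the value of a character on a line -/
noncomputable def DD.ρ (R : DD K D f σ σ') (κ : ℕ) (ν : ℝ) (ψ : Ideal (𝓞 K) → ℂ)
    (c : ClassGroup (𝓞 K)) (V : ℤ × ℤ) : ℂ :=
  rtr σ σ' κ ν ψ (R.b c) (R.α c) (R.β c) V

open Classical in
/-- the sum over the sublattices for a line -/
noncomputable def DD.G (R : DD K D f σ σ') (κ : ℕ) (m : ℤ) (s : ℂ) (n : ℕ)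
    (c : ClassGroup (𝓞 K)) (V : ℤ × ℤ) (τ : ℝ) : ℂ :=
  ∑ L ∈ (Ls n).filter (fun L => Dv n L (R.fo c V)), Fr σ σ' κ m s n L (R.v₁ c V) (R.v₂ c V) τ

open Classical in
/-- the index set: classes and lines -/
noncomputable def DD.J (R : DD K D f σ σ') : Finset (Σ _ : ClassGroup (𝓞 K), ℤ × ℤ) :=
  Finset.univ.sigma R.T

/-- the sum over the classes and the lines -/
noncomputable def DD.E (R : DD K D f σ σ') (κ : ℕ) (m : ℤ) (ν : ℝ) (ψ : Ideal (𝓞 K) → ℂ) (n : ℕ)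
    (s : ℂ) : ℂ :=
  (R.n : ℂ)⁻¹ * ∑ j ∈ R.J, R.ρ κ ν ψ j.1 j.2 * ∫ τ in (0 : ℝ)..R.P, R.G κ m s n j.1 j.2 τ *
    Complex.exp (-(((ν * τ : ℝ) : ℂ) * Complex.I))

end

/-! ### The field -/

/-- (EMB) the embeddings and the norm. -/
def T_EMB : Prop :=
  ∀ (K : Type) [Field K] [NumberField K] (D : ℕ) (σ σ' : K →+* ℝ), RQ K D σ σ' →
    (∀ a : K, ((Algebra.norm ℚ a : ℚ) : ℝ) = σ a * σ' a) ∧
    (∀ a : 𝓞 K, (Ideal.absNorm (Ideal.span {a}) : ℝ) = |σ (a : K) * σ' (a : K)|) ∧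
    ∀ B : ℝ, {a : 𝓞 K | |σ (a : K)| ≤ B ∧ |σ' (a : K)| ≤ B}.Finite

/-- (TYR) the infinity type. -/
def T_TYR : Prop :=
  ∀ (K : Type) [Field K] [NumberField K] (σ σ' : K →+* ℝ) (κ : ℕ) (ν : ℝ),
    (∀ a b : 𝓞 K, a ≠ 0 → b ≠ 0 → lg σ σ' (a * b) = lg σ σ' a + lg σ σ' b ∧
      tyr σ σ' κ ν (a * b) = tyr σ σ' κ ν a * tyr σ σ' κ ν b) ∧
    (∀ a : 𝓞 K, a ≠ 0 → ‖tyr σ σ' κ ν a‖ = 1) ∧
    ∀ n : ℤ, n ≠ 0 → lg σ σ' (n : 𝓞 K) = 0 ∧ tyr σ σ' κ ν (n : 𝓞 K) = 1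

/-- (OBG) every ideal has an oriented basis. -/
def T_OBGr : Prop :=
  ∀ (K : Type) [Field K] [NumberField K] (D : ℕ) (σ σ' : K →+* ℝ), RQ K D σ σ' →
    ∀ I : Ideal (𝓞 K), I ≠ ⊥ → ∃ (α β : 𝓞 K) (Q : QF), dsc Q = -(D : ℤ) ∧ OBr σ σ' I α β Q

/-- (VIG) the vectors of an ideal and the integral ideals of the inverse class. -/
def T_VIGr : Prop :=
  ∀ (K : Type) [Field K] [NumberField K] (D : ℕ) (σ σ' : K →+* ℝ), RQ K D σ σ' →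
    ∀ (I : (Ideal (𝓞 K))⁰) (α β : 𝓞 K) (Q : QF), OBr σ σ' (I : Ideal (𝓞 K)) α β Q →
    ∃ b : ℤ × ℤ → (Ideal (𝓞 K))⁰, VBr I α β Q b

/-- (UEX) the unit exists. -/
def T_UEX : Prop :=
  ∀ (K : Type) [Field K] [NumberField K] (D f : ℕ) (σ σ' : K →+* ℝ), RQ K D σ σ' → 1 ≤ f →
    ∃ η : (𝓞 K)ˣ, UNr σ σ' f η

/-- (DDX) the data exist. -/
def T_DDX : Prop :=
  ∀ (K : Type) [Field K] [NumberField K] (D f : ℕ) (σ σ' : K →+* ℝ), RQ K D σ σ' → 1 ≤ f →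
    Nonempty (DD K D f σ σ')

/-- (UWN) every window contains the same number of units. -/
def T_UWN : Prop :=
  ∀ (K : Type) [Field K] [NumberField K] (D f : ℕ) (σ σ' : K →+* ℝ), RQ K D σ σ' →
    ∀ η : (𝓞 K)ˣ, UNr σ σ' f η → 0 < lg σ σ' (η : 𝓞 K) ∧ 0 < nq σ σ' η ∧ ∀ x : ℝ,
      {u : (𝓞 K)ˣ | x ≤ lg σ σ' (u : 𝓞 K) ∧ lg σ σ' (u : 𝓞 K) < x + lg σ σ' (η : 𝓞 K)}.Finite ∧
      {u : (𝓞 K)ˣ | x ≤ lg σ σ' (u : 𝓞 K) ∧ lg σ σ' (u : 𝓞 K) < x + lg σ σ' (η : 𝓞 K)}.ncard =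
        nq σ σ' η

/-- (WND) every window contains the same number of the generators of an ideal. -/
def T_WND : Prop :=
  ∀ (K : Type) [Field K] [NumberField K] (D f : ℕ) (σ σ' : K →+* ℝ), RQ K D σ σ' →
    ∀ η : (𝓞 K)ˣ, UNr σ σ' f η →
    ∀ (I : (Ideal (𝓞 K))⁰) (α β : 𝓞 K) (Q : QF) (b : ℤ × ℤ → (Ideal (𝓞 K))⁰),
      OBr σ σ' (I : Ideal (𝓞 K)) α β Q → VBr I α β Q b → ∀ (v : ℤ × ℤ) (x : ℝ), v ≠ 0 →
      {v' : ℤ × ℤ | Wd σ σ' α β η x v' ∧ b v' = b v}.Finite ∧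
      {v' : ℤ × ℤ | Wd σ σ' α β η x v' ∧ b v' = b v}.ncard = nq σ σ' η

/-- (UAC) the action of the unit on the vectors. -/
def T_UAC : Prop :=
  ∀ (K : Type) [Field K] [NumberField K] (σ σ' : K →+* ℝ) (f : ℕ) (I : Ideal (𝓞 K))
    (α β : 𝓞 K) (Q : QF) (η : (𝓞 K)ˣ), 1 ≤ f → OBr σ σ' I α β Q → UNr σ σ' f η →
    ∃ E : ℤ × ℤ ≃ ℤ × ℤ, (∀ v, lv K α β (E v) = η * lv K α β v) ∧ (∀ v, E v = 0 ↔ v = 0) ∧
      (∀ V v, (f : ℤ) ∣ det V (E v) ↔ (f : ℤ) ∣ det V v) ∧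
      (∀ v, val Q (E v) = val Q v) ∧
      ∀ (J : Ideal (𝓞 K)) (v : ℤ × ℤ), E v ∈ lt K α β J ↔ v ∈ lt K α β J

/-- (LIN) the lattices of the multiples of an ideal. -/
def T_LINr : Prop :=
  ∀ (K : Type) [Field K] [NumberField K] (D : ℕ) (σ σ' : K →+* ℝ), RQ K D σ σ' →
    ∀ (I P : (Ideal (𝓞 K))⁰) (α β : 𝓞 K) (Q : QF), OBr σ σ' (I : Ideal (𝓞 K)) α β Q →
    (lt K α β ((P : Ideal (𝓞 K)) * I)).index = nm P ∧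
    Dv (nm P) (lt K α β ((P : Ideal (𝓞 K)) * I)) Q ∧
    ∀ P' : (Ideal (𝓞 K))⁰, lt K α β ((P' : Ideal (𝓞 K)) * I) = lt K α β ((P : Ideal (𝓞 K)) * I) →
      P' = P

/-- (LSU) every lattice of squarefree index `n` on which the form is divisible by `n` belongs to
an ideal. -/
def T_LSUr : Prop :=
  ∀ (K : Type) [Field K] [NumberField K] (D : ℕ) (σ σ' : K →+* ℝ), RQ K D σ σ' →
    ∀ (I : (Ideal (𝓞 K))⁰) (α β : 𝓞 K) (Q : QF), OBr σ σ' (I : Ideal (𝓞 K)) α β Q →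
    ∀ (n : ℕ) (L : AddSubgroup (ℤ × ℤ)), Squarefree n → L.index = n → Dv n L Q →
      ∃ P : (Ideal (𝓞 K))⁰, nm P = n ∧ lt K α β ((P : Ideal (𝓞 K)) * I) = L

/-! ### Points on geodesics -/

/-- (PHX) the complex numbers `ph`. -/
def T_PHX : Prop :=
  ∀ (K : Type) [Field K] [NumberField K] (σ σ' : K →+* ℝ) (τ : ℝ) (a : 𝓞 K), a ≠ 0 →
    ph σ σ' τ a ≠ 0 ∧ ‖wp σ σ' τ a‖ = 1 ∧
    Complex.normSq (ph σ σ' τ a) =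
      2 * |σ (a : K) * σ' (a : K)| * Real.cosh (τ + lg σ σ' a) ∧
    ∀ (κ : ℕ) (m : ℤ), (wp σ σ' τ a ^ m + (-1) ^ κ * wp σ σ' τ a ^ (-m)) / 2 =
      ((Real.sign (σ (a : K) * σ' (a : K)) : ℝ) : ℂ) ^ κ * trr κ m (τ + lg σ σ' a)

/-- (PBG) the point of a basis. -/
def T_PBG : Prop :=
  ∀ (K : Type) [Field K] [NumberField K] (σ σ' : K →+* ℝ) (N : ℝ) (a b : 𝓞 K) (Q : QF),
    PB σ σ' N a b Q → (0 : ℝ) < -(dsc Q : ℝ) ∧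
    σ (a : K) * σ' (b : K) - σ (b : K) * σ' (a : K) = N * Real.sqrt (-(dsc Q : ℝ)) ∧
    ∀ τ : ℝ, 0 < (zp σ σ' τ a b).im ∧ Geo Q (zp σ σ' τ a b).re (zp σ σ' τ a b).im ∧
      ∀ v : ℤ × ℤ, lv K a b v ≠ 0 →
        ‖an (zp σ σ' τ a b).re (zp σ σ' τ a b).im v‖ = 1 ∧
        wp σ σ' τ a * an (zp σ σ' τ a b).re (zp σ σ' τ a b).im v = wp σ σ' τ (lv K a b v) ∧
        qz (zp σ σ' τ a b).re (zp σ σ' τ a b).im v =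
          |(val Q v : ℝ)| * Real.cosh (τ + lg σ σ' (lv K a b v)) / Real.sqrt (-(dsc Q : ℝ))

/-- (PBT) change of the basis and of the time. -/
def T_PBT : Prop :=
  ∀ (K : Type) [Field K] [NumberField K] (σ σ' : K →+* ℝ),
    (∀ (I : Ideal (𝓞 K)) (α β : 𝓞 K) (Q : QF), I ≠ ⊥ → OBr σ σ' I α β Q →
      PB σ σ' (Ideal.absNorm I) α β Q) ∧
    (∀ (N : ℝ) (a b : 𝓞 K) (Q : QF) (f : ℕ) (V W : ℤ × ℤ), PB σ σ' N a b Q → 1 ≤ f →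
      det V W = 1 → PB σ σ' N (lv K a b V) ((f : 𝓞 K) * lv K a b W) (fl f Q V W) ∧
      ∀ v, lv K (lv K a b V) ((f : 𝓞 K) * lv K a b W) v = lv K a b (io f V W v)) ∧
    (∀ (N : ℝ) (a b : 𝓞 K) (Q : QF) (g : SL(2, ℤ)), PB σ σ' N a b Q →
      PB σ σ' N (lv K a b (g 0 0, g 1 0)) (lv K a b (g 0 1, g 1 1)) (act Q g) ∧
      ∀ τ : ℝ, (zp σ σ' τ (lv K a b (g 0 0, g 1 0)) (lv K a b (g 0 1, g 1 1))).re =
          gx g (zp σ σ' τ a b).re (zp σ σ' τ a b).im ∧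
        (zp σ σ' τ (lv K a b (g 0 0, g 1 0)) (lv K a b (g 0 1, g 1 1))).im =
          gy g (zp σ σ' τ a b).re (zp σ σ' τ a b).im) ∧
    ∀ (e : 𝓞 K) (τ : ℝ) (a b : 𝓞 K), 0 < σ (e : K) → σ (e : K) * σ' (e : K) = 1 →
      ph σ σ' τ (e * a) = ph σ σ' (τ + lg σ σ' e) a ∧
      zp σ σ' τ (e * a) (e * b) = zp σ σ' (τ + lg σ σ' e) a b

/-- (FRM) the Epstein zeta function of the form of a line. -/
def T_FRMr : Prop :=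
  ∀ (K : Type) [Field K] [NumberField K] (σ σ' : K →+* ℝ) (I : Ideal (𝓞 K)) (α β : 𝓞 K)
    (Q : QF), I ≠ ⊥ → OBr σ σ' I α β Q →
    ∀ (κ : ℕ) (m : ℤ) (s : ℂ) (n f : ℕ) (V W : ℤ × ℤ) (L : AddSubgroup (ℤ × ℤ)) (τ : ℝ),
      1 ≤ n → 1 ≤ f → det V W = 1 →
      Fr σ σ' κ m s n L (lv K α β V) ((f : 𝓞 K) * lv K α β W) τ =
        Fr σ σ' κ m s (n * f) (L.map (io f V W)) α β τ

/-- (HOL) continuity and holomorphy. -/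
def T_HOLr : Prop :=
  ∀ (K : Type) [Field K] [NumberField K] (σ σ' : K →+* ℝ) (N : ℝ) (a b : 𝓞 K) (Q : QF),
    PB σ σ' N a b Q → ∀ (κ : ℕ) (m : ℤ) (n : ℕ) (L : AddSubgroup (ℤ × ℤ)), 1 ≤ n → L ∈ Ls n →
    (∀ s : ℂ, Continuous (Fr σ σ' κ m s n L a b)) ∧
    (∀ (m' : ℤ) (s : ℂ), Continuous fun τ : ℝ =>
      Em m' s n L (zp σ σ' τ a b).re (zp σ σ' τ a b).im) ∧
    ∀ ν P : ℝ, Differentiable ℂ fun s : ℂ => ∫ τ in (0 : ℝ)..P, Fr σ σ' κ m s n L a b τ *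
      Complex.exp (-(((ν * τ : ℝ) : ℂ) * Complex.I))

/-! ### Characters on lines -/

/-- (PAR) proportional vectors. -/
def T_PARr : Prop :=
  ∀ (K : Type) [Field K] [NumberField K] (σ σ' : K →+* ℝ) (f : ℕ) (I : (Ideal (𝓞 K))⁰)
    (α β : 𝓞 K) (Q : QF) (b : ℤ × ℤ → (Ideal (𝓞 K))⁰), 1 ≤ f →
    OBr σ σ' (I : Ideal (𝓞 K)) α β Q → VBr I α β Q b →
    ∀ v v' : ℤ × ℤ, v ≠ 0 → v' ≠ 0 → Uv f Q v → Uv f Q v' → (f : ℤ) ∣ det v v' →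
    ∃ (a : 𝓞 K) (n : ℕ), 1 ≤ n ∧ Pool.Agent.H95.CF.Rat K f f a ∧
      Pool.Agent.H95.CF.Rat K f f (n : 𝓞 K) ∧ a * lv K α β v = (n : 𝓞 K) * lv K α β v' ∧
      Ideal.span {a} * (b v : Ideal (𝓞 K)) = Ideal.span {(n : 𝓞 K)} * (b v' : Ideal (𝓞 K))

/-- (RHO) the value of a character on a line. -/
def T_RHOr : Prop :=
  ∀ (K : Type) [Field K] [NumberField K] (σ σ' : K →+* ℝ) (f κ : ℕ) (ν : ℝ)
    (ψ : Ideal (𝓞 K) → ℂ) (I : (Ideal (𝓞 K))⁰) (α β : 𝓞 K) (Q : QF)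
    (b : ℤ × ℤ → (Ideal (𝓞 K))⁰),
    OBr σ σ' (I : Ideal (𝓞 K)) α β Q → VBr I α β Q b → RCr K σ σ' f κ ν ψ →
    (∀ v v' : ℤ × ℤ, v ≠ 0 → v' ≠ 0 → Uv f Q v → Uv f Q v' → (f : ℤ) ∣ det v v' →
      rtr σ σ' κ ν ψ b α β v = rtr σ σ' κ ν ψ b α β v') ∧
    (∀ v : ℤ × ℤ, v ≠ 0 → Uv f Q v → ‖rtr σ σ' κ ν ψ b α β v‖ = 1) ∧
    ∀ v : ℤ × ℤ, v ≠ 0 → ¬ Uv f Q v → ψ (b v) = 0

open Classical in
/-- (PRI) primitivity. -/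
def T_PRIr : Prop :=
  ∀ (K : Type) [Field K] [NumberField K] (σ σ' : K →+* ℝ) (f κ : ℕ) (ν : ℝ)
    (ψ : Ideal (𝓞 K) → ℂ) (I : (Ideal (𝓞 K))⁰) (α β : 𝓞 K) (Q : QF)
    (b : ℤ × ℤ → (Ideal (𝓞 K))⁰) (T : Finset (ℤ × ℤ)) (W : ℤ × ℤ → ℤ × ℤ),
    OBr σ σ' (I : Ideal (𝓞 K)) α β Q → VBr I α β Q b → LT f Q T W → RCr K σ σ' f κ ν ψ →
    ∀ (p : ℕ) (R : ℤ × ℤ → Prop), p.Prime → p ∣ f →
      (∀ V ∈ T, ∀ V' ∈ T, ((f / p : ℕ) : ℤ) ∣ det V V' → (R V ↔ R V')) →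
      ∑ V ∈ T, (if R V then rtr σ σ' κ ν ψ b α β V else 0) = 0

open Classical in
/-- (NCU) the sum over the lines which contain `u`. -/
def T_NCUr : Prop :=
  ∀ (K : Type) [Field K] [NumberField K] (σ σ' : K →+* ℝ) (f κ : ℕ) (ν : ℝ)
    (ψ : Ideal (𝓞 K) → ℂ) (I : (Ideal (𝓞 K))⁰) (α β : 𝓞 K) (Q : QF)
    (b : ℤ × ℤ → (Ideal (𝓞 K))⁰) (T : Finset (ℤ × ℤ)) (W : ℤ × ℤ → ℤ × ℤ),
    OBr σ σ' (I : Ideal (𝓞 K)) α β Q → VBr I α β Q b → LT f Q T W → RCr K σ σ' f κ ν ψ →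
    ∀ u : ℤ × ℤ, u ≠ 0 →
      ∑ V ∈ T, (if (f : ℤ) ∣ det V u then rtr σ σ' κ ν ψ b α β V else 0) =
        if Uv f Q u then rtr σ σ' κ ν ψ b α β u else 0

open Classical in
/-- (SUM) sums over the lines and sums over all vectors of the window. -/
def T_SUMr : Prop :=
  ∀ (K : Type) [Field K] [NumberField K] (σ σ' : K →+* ℝ) (f κ : ℕ) (ν : ℝ)
    (ψ : Ideal (𝓞 K) → ℂ) (I : (Ideal (𝓞 K))⁰) (α β : 𝓞 K) (Q : QF)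
    (b : ℤ × ℤ → (Ideal (𝓞 K))⁰) (T : Finset (ℤ × ℤ)) (W : ℤ × ℤ → ℤ × ℤ) (η : (𝓞 K)ˣ),
    OBr σ σ' (I : Ideal (𝓞 K)) α β Q → VBr I α β Q b → LT f Q T W → RCr K σ σ' f κ ν ψ →
    ∀ (L : AddSubgroup (ℤ × ℤ)) (h : ℝ → ℂ) (a : ℤ × ℤ → ℂ),
      (∀ V ∈ T, HasSum (fun u : ℤ × ℤ => if u ∈ L ∧ (f : ℤ) ∣ det V u ∧ Wd σ σ' α β η 0 u then
        tyr σ σ' κ ν (lv K α β u) * h |(val Q u : ℝ)| else 0) (a V)) →
      HasSum (fun u : ℤ × ℤ => if u ∈ L ∧ Wd σ σ' α β η 0 u then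
        ψ (b u) * h |(val Q u : ℝ)| else 0) (∑ V ∈ T, rtr σ σ' κ ν ψ b α β V * a V)

/-- (VAN) the vanishing of the terms which are not prime to the conductor. -/
def T_VANr : Prop :=
  ∀ (K : Type) [Field K] [NumberField K] (σ σ' : K →+* ℝ) (f κ : ℕ) (ν : ℝ)
    (ψ : Ideal (𝓞 K) → ℂ) (I : (Ideal (𝓞 K))⁰) (α β : 𝓞 K) (Q : QF)
    (b : ℤ × ℤ → (Ideal (𝓞 K))⁰) (T : Finset (ℤ × ℤ)) (W : ℤ × ℤ → ℤ × ℤ),
    OBr σ σ' (I : Ideal (𝓞 K)) α β Q → VBr I α β Q b → LT f Q T W → RCr K σ σ' f κ ν ψ →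
    ∀ (n p : ℕ) (E : AddSubgroup (ℤ × ℤ) → ℂ), p.Prime → p ∣ n → p ∣ f →
      ∑ V ∈ T, rtr σ σ' κ ν ψ b α β V * ∑ L ∈ Tn n f Q V, E L = 0

open Classical in
/-- (LS1) the lattices of index `1`. -/
def T_LS1 : Prop := ∀ Q : QF, (Ls 1).filter (fun L => Dv 1 L Q) = {⊤}

/-- (LC1) the coefficients. -/
def T_LC1r : Prop :=
  ∀ (K : Type) [Field K] [NumberField K] (σ σ' : K →+* ℝ) (f κ : ℕ) (ν : ℝ)
    (ψ : Ideal (𝓞 K) → ℂ), RCr K σ σ' f κ ν ψ → lc ψ 1 = 1 ∧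
      (∀ n : ℕ, ¬ Nat.Coprime n f → lc ψ n = 0) ∧
      ∀ (D : ℕ) (η : (𝓞 K)ˣ), RQ K D σ σ' → UNr σ σ' f η →
        Complex.exp (((ν * lg σ σ' (η : 𝓞 K) : ℝ) : ℂ) * Complex.I) = 1

/-! ### The `L`-functions and the Epstein zeta functions -/

open Classical in
/-- (TWS) sums over the vectors of a window are sums over the ideals of a class. -/
def T_TWSr : Prop :=
  ∀ (K : Type) [Field K] [NumberField K] (D f : ℕ) (σ σ' : K →+* ℝ), RQ K D σ σ' →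
    ∀ (I P : (Ideal (𝓞 K))⁰) (α β : 𝓞 K) (Q : QF) (b : ℤ × ℤ → (Ideal (𝓞 K))⁰) (η : (𝓞 K)ˣ)
    (ψ : Ideal (𝓞 K) → ℂ), OBr σ σ' (I : Ideal (𝓞 K)) α β Q → VBr I α β Q b → UNr σ σ' f η →
    (∀ A B, ψ (A * B) = ψ A * ψ B) → ∀ (h : ℝ → ℂ) (a : ℂ),
      HasSum (fun v : ℤ × ℤ => if v ∈ lt K α β ((P : Ideal (𝓞 K)) * I) ∧ Wd σ σ' α β η 0 v then
        ψ (b v) * h (|(val Q v : ℝ)| / nm P) else 0) a →
      HasSum (fun J : (Ideal (𝓞 K))⁰ =>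
        if ClassGroup.mk0 J = (ClassGroup.mk0 I * ClassGroup.mk0 P)⁻¹ then
          ψ P * ψ J * h (nm J) else 0) (a / nq σ σ' η)

/-- (SML) the sum of the negative powers of the values over a window converges. -/
def T_SML : Prop :=
  ∀ (K : Type) [Field K] [NumberField K] (D f : ℕ) (σ σ' : K →+* ℝ), RQ K D σ σ' →
    (∀ a : ℝ, 1 < a → Summable fun J : (Ideal (𝓞 K))⁰ => (nm J : ℝ) ^ (-a)) ∧
    ∀ (I : (Ideal (𝓞 K))⁰) (α β : 𝓞 K) (Q : QF) (b : ℤ × ℤ → (Ideal (𝓞 K))⁰) (η : (𝓞 K)ˣ),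
    OBr σ σ' (I : Ideal (𝓞 K)) α β Q → VBr I α β Q b → UNr σ σ' f η → ∀ a x : ℝ, 1 < a →
      Summable fun v : {v : ℤ × ℤ // Wd σ σ' α β η x v} => |(val Q v : ℝ)| ^ (-a)

open Classical in
/-- (UNW) the unfolding of a sum over a lattice on a line. -/
def T_UNW : Prop :=
  ∀ (K : Type) [Field K] [NumberField K] (D f : ℕ) (σ σ' : K →+* ℝ), RQ K D σ σ' → 1 ≤ f →
    ∀ (I J : (Ideal (𝓞 K))⁰) (α β : 𝓞 K) (Q : QF) (b : ℤ × ℤ → (Ideal (𝓞 K))⁰) (η : (𝓞 K)ˣ)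
    (V : ℤ × ℤ), OBr σ σ' (I : Ideal (𝓞 K)) α β Q → dsc Q = -(D : ℤ) → VBr I α β Q b →
    UNr σ σ' f η → ∀ (κ : ℕ) (m : ℤ) (ν : ℝ) (M : ℕ) (k : ℝ → ℂ) (C a : ℝ) (E : ℝ → ℂ),
    Complex.exp (((ν * lg σ σ' (η : 𝓞 K) : ℝ) : ℂ) * Complex.I) = 1 → 1 ≤ M →
    ContinuousOn k (Ioi 0) → 1 < a → (∀ r : ℝ, 0 < r → ‖k r‖ ≤ C * r ^ (-a)) →
    (∀ τ : ℝ, HasSum (fun v : ℤ × ℤ =>
      if v ∈ lt K α β (J : Ideal (𝓞 K)) ∧ (f : ℤ) ∣ det V v ∧ v ≠ 0 then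
        (wp σ σ' τ α ^ m * an (zp σ σ' τ α β).re (zp σ σ' τ α β).im v ^ m +
          (-1) ^ κ * wp σ σ' τ α ^ (-m) * an (zp σ σ' τ α β).re (zp σ σ' τ α β).im v ^ (-m)) / 2 *
          k (qz (zp σ σ' τ α β).re (zp σ σ' τ α β).im v / M) else 0) (E τ)) →
    HasSum (fun v : ℤ × ℤ =>
      if v ∈ lt K α β (J : Ideal (𝓞 K)) ∧ (f : ℤ) ∣ det V v ∧ Wd σ σ' α β η 0 v then
        tyr σ σ' κ ν (lv K α β v) * kr κ m ν k (|(val Q v : ℝ)| / (M * Real.sqrt D)) else 0)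
      (∫ τ in (0 : ℝ)..lg σ σ' (η : 𝓞 K), E τ *
        Complex.exp (-(((ν * τ : ℝ) : ℂ) * Complex.I)))

open Classical in
/-- (WCL) the sum over the lines of a class is a sum over the ideals of a class. -/
def T_WCL : Prop :=
  ∀ (K : Type) [Field K] [NumberField K] (D f : ℕ) (σ σ' : K →+* ℝ) (κ : ℕ) (ν : ℝ)
    (ψ : Ideal (𝓞 K) → ℂ), RQ K D σ σ' → RCr K σ σ' f κ ν ψ →
    ∀ (R : DD K D f σ σ') (c : ClassGroup (𝓞 K)) (P : (Ideal (𝓞 K))⁰) (m : ℤ) (M : ℕ)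
    (k : ℝ → ℂ) (C a : ℝ) (E : ℤ × ℤ → ℝ → ℂ), 1 ≤ M →
    ContinuousOn k (Ioi 0) → 1 < a → (∀ r : ℝ, 0 < r → ‖k r‖ ≤ C * r ^ (-a)) →
    (∀ V ∈ R.T c, ∀ τ : ℝ, HasSum (fun v : ℤ × ℤ =>
      if v ∈ lt K (R.α c) (R.β c) ((P : Ideal (𝓞 K)) * R.I c) ∧ (f : ℤ) ∣ det V v ∧ v ≠ 0 then
        (wp σ σ' τ (R.α c) ^ m *
            an (zp σ σ' τ (R.α c) (R.β c)).re (zp σ σ' τ (R.α c) (R.β c)).im v ^ m +
          (-1) ^ κ * wp σ σ' τ (R.α c) ^ (-m) *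
            an (zp σ σ' τ (R.α c) (R.β c)).re (zp σ σ' τ (R.α c) (R.β c)).im v ^ (-m)) / 2 *
          k (qz (zp σ σ' τ (R.α c) (R.β c)).re (zp σ σ' τ (R.α c) (R.β c)).im v / M) else 0)
      (E V τ)) →
    HasSum (fun J : (Ideal (𝓞 K))⁰ =>
      if ClassGroup.mk0 J = (c * ClassGroup.mk0 P)⁻¹ then
        ψ P * ψ J * kr κ m ν k ((nm J : ℝ) * nm P / (M * Real.sqrt D)) else 0)
      ((R.n : ℂ)⁻¹ * ∑ V ∈ R.T c, R.ρ κ ν ψ c V * ∫ τ in (0 : ℝ)..R.P, E V τ *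
        Complex.exp (-(((ν * τ : ℝ) : ℂ) * Complex.I)))

/-- (LF1) the twisted `L`-function in terms of the forms, `Re s > 1`. -/
def T_LF1r : Prop :=
  ∀ (K : Type) [Field K] [NumberField K] (D f : ℕ) (σ σ' : K →+* ℝ) (κ : ℕ) (ν : ℝ)
    (ψ : Ideal (𝓞 K) → ℂ), RQ K D σ σ' → RCr K σ σ' f κ ν ψ → ∀ R : DD K D f σ σ',
    ∀ (m : ℤ) (n : ℕ), Squarefree n → ∀ s A : ℂ, 1 < s.re →
      HasSum (fun I : (Ideal (𝓞 K))⁰ => ψ I * (Ideal.absNorm (I : Ideal (𝓞 K)) : ℂ) ^ (-s)) A →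
      lc ψ n * (gM m.natAbs s * crr κ m ν s * ((f : ℂ) ^ 2 * D) ^ (s / 2) * A) =
        R.E κ m ν ψ n s

/-- (LF2) the twisted `L`-function in terms of the forms. -/
def T_LF2r : Prop :=
  ∀ (K : Type) [Field K] [NumberField K] (D f : ℕ) (σ σ' : K →+* ℝ) (κ : ℕ) (ν : ℝ)
    (ψ : Ideal (𝓞 K) → ℂ) (F : ℂ → ℂ), RQ K D σ σ' → RCr K σ σ' f κ ν ψ → IsL ψ F →
    ∀ (R : DD K D f σ σ') (m : ℤ) (n : ℕ), Squarefree n → ∀ s : ℂ, 0 < s.re → s ≠ 1 →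
      lc ψ n * (gM m.natAbs s * crr κ m ν s * ((f : ℂ) ^ 2 * D) ^ (s / 2) * F s) =
        R.E κ m ν ψ n s

/-! ### Bessel's inequality -/

open Classical in
/-- (CNT) every line has the same number of unit multiples. -/
def T_CNTr : Prop :=
  ∀ (K : Type) [Field K] [NumberField K] (D f : ℕ) (σ σ' : K →+* ℝ), RQ K D σ σ' → 1 ≤ f →
    ∀ R : DD K D f σ σ', ∃ M : ℕ, 0 < M ∧ ∀ c, ∀ V ∈ R.T c,
      ((R.T c).filter (fun V' => UP (R.α c) (R.β c) f V V')).card = M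

/-- (FBR) lines have the same class iff they differ by a unit. -/
def T_FBRr : Prop :=
  ∀ (K : Type) [Field K] [NumberField K] (D f : ℕ) (σ σ' : K →+* ℝ), RQ K D σ σ' → 1 ≤ f →
    ∀ (R : DD K D f σ σ') (G : Type) [CommGroup G] (cl : Ideal (𝓞 K) → G),
    Pool.Agent.H95.CF.RG K f G cl →
    (∀ (c c' : ClassGroup (𝓞 K)) (V V' : ℤ × ℤ), V ∈ R.T c → V' ∈ R.T c' →
      (cl (R.b c V) = cl (R.b c' V') ↔ c = c' ∧ UP (R.α c) (R.β c) f V V')) ∧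
    ∀ g : G, ∃ c, ∃ V ∈ R.T c, cl (R.b c V) = g

/-- (CHX) two characters of the same type differ by a character of the group. -/
def T_CHXr : Prop :=
  ∀ (K : Type) [Field K] [NumberField K] (σ σ' : K →+* ℝ) (f κ : ℕ) (ν : ℝ)
    (ψ₀ ψ : Ideal (𝓞 K) → ℂ) (G : Type) [CommGroup G] (cl : Ideal (𝓞 K) → G),
    Pool.Agent.H95.CF.RG K f G cl → RCr K σ σ' f κ ν ψ₀ → RCr K σ σ' f κ ν ψ →
    ∃ φ : G →* ℂˣ, ∀ I, Pool.Agent.H95.CF.Pr K f I → ψ I = ψ₀ I * ((φ (cl I) : ℂˣ) : ℂ)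

/-- (ORT) orthogonality. -/
def T_ORTr : Prop :=
  ∀ (K : Type) [Field K] [NumberField K] (D f : ℕ) (σ σ' : K →+* ℝ), RQ K D σ σ' →
    ∀ (R : DD K D f σ σ') (κ : ℕ) (ν ν' : ℝ) (ψ ψ' : Ideal (𝓞 K) → ℂ),
    RCr K σ σ' f κ ν ψ → RCr K σ σ' f κ ν' ψ' →
    (∀ j ∈ R.J, ‖R.ρ κ ν ψ j.1 j.2‖ = 1) ∧
    (ψ ≠ ψ' → (∑ j ∈ R.J, R.ρ κ ν ψ j.1 j.2 * (starRingEnd ℂ) (R.ρ κ ν' ψ' j.1 j.2)) *
      ∫ τ in (0 : ℝ)..R.P, Complex.exp (-((((ν - ν') * τ : ℝ) : ℂ) * Complex.I)) = 0)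

/-- (PVF) the twisted second moment for one field, conductor and parity. -/
def T_PVFr : Prop :=
  ∀ (K : Type) [Field K] [NumberField K] (D f : ℕ) (σ σ' : K →+* ℝ), RQ K D σ σ' → 1 ≤ f →
    ∀ (R : DD K D f σ σ') (κ : ℕ) (Ψ : Finset (Ideal (𝓞 K) → ℂ)) (ν : (Ideal (𝓞 K) → ℂ) → ℝ)
      (F : (Ideal (𝓞 K) → ℂ) → ℂ → ℂ),
      (∀ ψ ∈ Ψ, RCr K σ σ' f κ (ν ψ) ψ ∧ IsL ψ (F ψ)) →
      ∀ (m : ℤ) (s : ℂ) (N : ℕ) (α : ℕ → ℂ), 0 < s.re → s ≠ 1 →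
      ∑ ψ ∈ Ψ, ‖∑ n ∈ Sq N, α n * lc ψ n‖ ^ 2 * ‖F ψ s‖ ^ 2 *
        (‖gM m.natAbs s‖ ^ 2 * ‖crr κ m (ν ψ) s‖ ^ 2 * ((D : ℝ) * (f : ℝ) ^ 2) ^ s.re) *
          (R.n : ℝ) ^ 2 ≤
        R.J.card * R.P * ∑ j ∈ R.J, ∫ τ in (0 : ℝ)..R.P,
          (‖Bz m s α N (R.fo j.1 j.2) (R.z j.1 j.2 τ).re (R.z j.1 j.2 τ).im‖ ^ 2 +
            ‖Bz (-m) s α N (R.fo j.1 j.2) (R.z j.1 j.2 τ).re (R.z j.1 j.2 τ).im‖ ^ 2) / 2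

/-! ### Volume and multiplicity -/

/-- (NID) the number of the ideals of norm `n`. -/
def T_NID : Prop :=
  ∀ ε : ℝ, 0 < ε → ∃ C : ℝ, 0 < C ∧ ∀ (K : Type) [Field K] [NumberField K],
    Module.finrank ℚ K = 2 → ∀ n : ℕ, 1 ≤ n → ((Nn K n).card : ℝ) ≤ C * (n : ℝ) ^ ε

/-- (VOC) the volume for the conductor `1`. -/
def T_VOC : Prop :=
  ∀ ε : ℝ, 0 < ε → ∃ C : ℝ, 0 < C ∧ ∀ (K : Type) [Field K] [NumberField K] (D f : ℕ)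
    (σ σ' : K →+* ℝ), RQ K D σ σ' → 1 ≤ f → ∀ R : DD K D f σ σ',
      (Fintype.card (ClassGroup (𝓞 K)) : ℝ) * R.P ≤ C * R.n * (D : ℝ) ^ (1 / 2 + ε)

/-- (VOL) the volume. -/
def T_VOLr : Prop :=
  ∀ ε : ℝ, 0 < ε → ∃ C : ℝ, 0 < C ∧ ∀ (K : Type) [Field K] [NumberField K] (D f : ℕ)
    (σ σ' : K →+* ℝ), RQ K D σ σ' → 1 ≤ f → ∀ R : DD K D f σ σ',
      (R.J.card : ℝ) * R.P ≤ C * R.n * ((D : ℝ) * (f : ℝ) ^ 2) ^ (1 / 2 + ε)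

/-- the time shift of a basis of a line -/
noncomputable def ly {K : Type} [Field K] [NumberField K] {D f : ℕ} {σ σ' : K →+* ℝ}
    (R : DD K D f σ σ') (c : ClassGroup (𝓞 K)) (V : ℤ × ℤ) (g : SL(2, ℤ)) : ℝ :=
  lg σ σ' (lv K (R.v₁ c V) (R.v₂ c V) (g 0 0, g 1 0))

/-- (MUL) the bases of the lines with a given form. -/
def T_MULr : Prop :=
  ∀ (K : Type) [Field K] [NumberField K] (D f : ℕ) (σ σ' : K →+* ℝ), RQ K D σ σ' → 1 ≤ f →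
    ∀ (R : DD K D f σ σ') (S : QF) (x : ℝ),
    {p : ClassGroup (𝓞 K) × (ℤ × ℤ) × SL(2, ℤ) | p.2.1 ∈ R.T p.1 ∧
      act (R.fo p.1 p.2.1) p.2.2 = S ∧ x ≤ ly R p.1 p.2.1 p.2.2 ∧
      ly R p.1 p.2.1 p.2.2 < x + R.P}.Finite ∧
    {p : ClassGroup (𝓞 K) × (ℤ × ℤ) × SL(2, ℤ) | p.2.1 ∈ R.T p.1 ∧
      act (R.fo p.1 p.2.1) p.2.2 = S ∧ x ≤ ly R p.1 p.2.1 p.2.2 ∧
      ly R p.1 p.2.1 p.2.2 < x + R.P}.ncard ≤ R.n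

/-- (FDU) the discriminant and the conductor are determined by the level. -/
def T_FDUr : Prop :=
  ∀ (K K' : Type) [Field K] [NumberField K] [Field K'] [NumberField K'] (D D' f f' : ℕ)
    (σ σ' : K →+* ℝ) (τ τ' : K' →+* ℝ),
    RQ K D σ σ' → RQ K' D' τ τ' → 1 ≤ f → 1 ≤ f' → D * f ^ 2 = D' * f' ^ 2 → D = D' ∧ f = f'

end Pool.Agent.H95.DR
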