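import Pool.Agent.H95.DR.Targets
import Pool.Agent.H89.DF.TargetsK
import Pool.Agent.H29.DF.Targets

/-!
# Dihedral `L`-functions, real quadratic fields: the twisted second moment of the `L`-functions
-/

set_option autoImplicit false

open MeasureTheory Set Filter NumberField
open scoped Real nonZeroDivisors Matrix MatrixGroups

namespace Pool.Agent.H95.DR

open Pool.Agent.H31.CN Pool.Agent.H89.FM Pool.Agent.H61.FM Pool.Agent.H89.FC Pool.Agent.H95.FC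
open Pool.Agent.H89.DF

open Classical in
/-- (WGT) the weights. -/
def T_WGTr : Prop :=
  ∃ C : ℝ, 0 < C ∧ ∀ (K : Type) [Field K] [NumberField K] (D f : ℕ) (σ σ' : K →+* ℝ),
    RQ K D σ σ' → 1 ≤ f → ∀ (R : DD K D f σ σ') (n : (Σ _ : ClassGroup (𝓞 K), ℤ × ℤ) → ℕ)
      (t : (Σ _ : ClassGroup (𝓞 K), ℤ × ℤ) → ℕ → ℝ) (S : QF),
      (∀ j ∈ R.J, 1 ≤ n j ∧ R.P / n j ≤ 1 ∧
        ∀ i < n j, i * (R.P / n j) ≤ t j i ∧ t j i ≤ (i + 1) * (R.P / n j)) →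
      ∑ j ∈ R.J, ∑ i ∈ (Finset.range (n j)).filter (fun i => ∃ g : SL(2, ℤ),
        act (R.fo j.1 j.2) g = S ∧
          1 / 2 ≤ gy g (R.z j.1 j.2 (t j i)).re (R.z j.1 j.2 (t j i)).im),
        R.P / n j / R.n ≤ C * (1 + Real.log ((D : ℝ) * (f : ℝ) ^ 2))

/-- (TMG) the twisted second moment with the local factor, for discriminants for which the forms
are anisotropic modulo the prime `p`. -/
def T_TMGr : Prop :=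
  ∀ ε : ℝ, 0 < ε → ∃ κ₀ : ℝ, 0 < κ₀ ∧ κ₀ ≤ 1 / 8 ∧ ∃ δ : ℝ, 0 < δ ∧ ∃ (C : ℝ) (k : ℕ), 0 < C ∧
    ∀ (m : ℤ) (q p : ℕ) (s : ℂ) (X V : ℝ) (N : ℕ) (α : ℕ → ℂ) (K : ℕ → Type)
      [∀ D, Field (K D)] [∀ D, NumberField (K D)] (σ σ' : ∀ D, K D →+* ℝ) (S : Finset (IXr K))
      (f κ : IXr K → ℕ) (ν : IXr K → ℝ) (F : IXr K → ℂ → ℂ),
      |s.re - 1 / 2| ≤ κ₀ → 1 ≤ X → 1 ≤ N → (N : ℝ) ≤ X ^ ((1 + δ) / 2) →
      (∀ n, ‖α n‖ ≤ 1) → p.Prime → Famr K σ σ' S f κ ν F (X / 4) X V → (∀ x ∈ S, κ x = q) →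
      (∀ x ∈ S, ∀ Q : QF, -(dsc Q) = (x.1 : ℤ) * (f x : ℤ) ^ 2 → Anis p Q) →
      ∑ x ∈ S, ‖∑ n ∈ Sq N, α n * lc x.2 n‖ ^ 2 * ‖F x s‖ ^ 2 * ‖crr q m (ν x) s‖ ^ 2 ≤
        C * (p : ℝ) ^ 3 * (1 + |s.im| + |(m : ℝ)|) ^ k * X ^ (3 / 2 + ε) * N

end Pool.Agent.H95.DR
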